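import Pool.Agent.PSV.StmtsS
import Pool.Agent.Helper81_MTA.Hmn
import Pool.Agent.Helper97_MTD.Moa
import Pool.Agent.Helper96_MTD.Htr
import Pool.Agent.Helper90_MTD.Kea

/-!
# Squad PSV, row TUE (helper64): separated translates with an explicit separation
-/

set_option autoImplicit false

namespace Pool.Agent.PSV.H64

open Matrix Polynomial Pool.Agent.MT100 Pool.Agent.MT100G Pool.Agent.MT100A Pool.Agent.MT100D
  Pool.Agent.Helper78_MT
open Pool.Agent.MT100A.H81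

/-- the monodromy group is the monodromy group of an explicit half plane -/
theorem hmn_ex {d : Type} [Fintype d] [DecidableEq d] {q : ℤ[X]} {B : Matrix d d ℤ[X]} {R : ℝ}
    {Y : ℂ → Matrix d d ℂ} (hB : Base q B R Y) {b : ℝ} (hb0 : 0 ≤ b)
    (hb : ∀ w : ℂ, w = 0 ∨ zC q w⁻¹ = 0 → -b ≤ w.re) :
    ∀ g ∈ monY q B Y Set.univ, g ∈ monY q B Y {w | -b - 3 < w.re} := by
  intro g hg
  have hsol := hB.sol
  have hR := hB.pos
  obtain ⟨m, hm⟩ : ∃ m : ℝ, m = -b - 3 := ⟨_, rfl⟩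
  rw [← hm]
  have hmR : m + 3 ≤ R := by rw [hm]; linarith
  have hreg : ∀ w : ℂ, w.re < m + 2 → w ≠ 0 ∧ zC q w⁻¹ ≠ 0 := by
    intro w hw
    by_contra hcon
    have h1 : w = 0 ∨ zC q w⁻¹ = 0 := by
      by_contra h2
      push Not at h2
      exact hcon h2
    have h3 := hb w h1
    rw [hm] at hw
    linarith
  have hg' : ∀ᶠ c : ℝ in Filter.atTop, Cnt q B Set.univ ((c : ℂ), 1, Y)
    ((c : ℂ), 1, fun w => Y w * g) := hg
  show ∀ᶠ c : ℝ in Filter.atTop, Cnt q B {w | m < w.re} ((c : ℂ), 1, Y)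
    ((c : ℂ), 1, fun w => Y w * g)
  filter_upwards [hg', Filter.eventually_gt_atTop (R + 1)] with c h1 h2
  have hbR : Metric.ball (c : ℂ) 1 ⊆ {w : ℂ | R < w.re} := MT100G.H19.ball_half h2
  have hbm : Metric.ball (c : ℂ) 1 ⊆ {w : ℂ | m < w.re} := by
    intro w hw
    have h3 : R < w.re := hbR hw
    show m < w.re
    linarith
  have hS : SolOn q B (c : ℂ) 1 Y := hsol c 1 one_pos hbR
  obtain ⟨h3, h4⟩ := retract (x0 := ((c : ℂ), 1, Y)) hreg hS hbm h1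
  have hcc : (c : ℂ) ∈ Metric.ball (c : ℂ) 1 := Metric.mem_ball_self one_pos
  have h5 := (qq_ra (hbm hcc) (ls_of h3 hcc)).1 (h4 (c : ℂ) hcc)
  obtain ⟨e0, he0, h6⟩ := h5
  have h7 := h6 (min e0 1) (lt_min he0 one_pos) (min_le_left _ _)
  have hb1 : Metric.ball (c : ℂ) (min e0 1) ⊆ Metric.ball (c : ℂ) 1 :=
    Metric.ball_subset_ball (min_le_right _ _)
  exact h7.tail ⟨MT100G.H11.solOn_mono h3 (lt_min he0 one_pos) hb1, h3, hb1.trans hbm, hbm,
    ⟨(c : ℂ), Metric.mem_ball_self (lt_min he0 one_pos), hcc⟩, fun _ _ => rfl⟩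

/-- the monodromy group of the half plane of `Base` is trivial -/
theorem htr_ex {d : Type} [Fintype d] [DecidableEq d] {q : ℤ[X]} {B : Matrix d d ℤ[X]} {R : ℝ}
    {Y : ℂ → Matrix d d ℂ} (hB : Base q B R Y) :
    ∀ g ∈ monY q B Y {w | R < w.re}, g = 1 := by
  intro g hg
  have hsol := hB.sol
  have hg' : ∀ᶠ c : ℝ in Filter.atTop, Cnt q B {w | R < w.re} ((c : ℂ), 1, Y)
    ((c : ℂ), 1, fun w => Y w * g) := hg
  obtain ⟨c, hc1, hc2⟩ := (hg'.and (Filter.eventually_gt_atTop (R + 1))).exists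
  have h1 := MT100G.H19.chain_eq MT100G.H47.uni hsol hc1 (c : ℂ) (Metric.mem_ball_self one_pos)
  have h2 : Y (c : ℂ) * g = Y (c : ℂ) := h1
  have hS : SolOn q B (c : ℂ) 1 Y := hsol c 1 one_pos (MT100G.H19.ball_half hc2)
  have h4 := hS.det (c : ℂ) (Metric.mem_ball_self one_pos)
  have h5 : (Y (c : ℂ))⁻¹ * (Y (c : ℂ) * g) = (Y (c : ℂ))⁻¹ * Y (c : ℂ) := by rw [h2]
  rwa [← Matrix.mul_assoc, Matrix.nonsing_inv_mul _ h4, Matrix.one_mul] at h5

theorem tue : TueStmt := by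
  intro d _ _ q B R Y hB b hb0 hb D hD ι _ κ hκ i g hg
  have hR := hB.pos
  obtain ⟨m0, hm0⟩ : ∃ m : ℝ, m = -b - 3 := ⟨_, rfl⟩
  have h0 := hmn_ex hB hb0 hb g hg
  rw [← hm0] at h0
  have hD2 : R - m0 ≤ D := by rw [hm0]; linarith
  have hD3 : -m0 ≤ D := by rw [hm0]; linarith
  obtain ⟨t, ht, hti, ht2, htj⟩ := MT100D.H90.kea d q B R Y hB ι κ i m0 g h0
  have hκi : (D : ℝ) ≤ κ i := by exact_mod_cast hκ.1 i
  refine ⟨t, ht, hti, ht2 (by linarith), fun j hj => ?_⟩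
  have hij : i ≠ j := by
    rintro rfl
    exact lt_irrefl _ hj
  have hD1 : 0 < D := by
    have h1 : (0 : ℝ) < D := by linarith
    exact_mod_cast h1
  have h2 : D ≤ κ i - κ j := by
    rcases hκ.2 i j hij with h | h
    · exact h
    · have h3 : κ j - κ i = 0 := Nat.sub_eq_zero_of_le hj.le
      omega
  have h3 : (D : ℝ) ≤ (κ i : ℝ) - κ j := by
    rw [← Nat.cast_sub hj.le]
    exact_mod_cast h2
  have h4 : t.1 j ∈ monY q B Y {w | R < w.re} := by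
    refine MT100D.H97.mo_mono ?_ (htj j)
    intro w hw
    have hw' : m0 + κ i - κ j < w.re := hw
    show R < w.re
    linarith
  exact htr_ex hB _ h4

end Pool.Agent.PSV.H64
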